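import Pool.Agent.helper26.IM.SpecA

/-! # Project im, module UP0: an infinite counterexample (helper82) -/

set_option autoImplicit false

open Finset

namespace Pool.Agent.helper26.IM

open Pool.Agent.RRank Pool.Agent.helper35.MR

theorem UP0 (hUPG : UPG_stmt) (hUAC : UAC_stmt) : UP0_stmt := by
  intro l hl
  have h1 : ∀ n : ℕ, ∃ (K : Type) (_ : Field K) (_ : IsAlgClosed K) (X Y Z : Type)
      (T : X → Y → Z → K), ¬ S3 T n ∧ ¬ HasFull T l := by
    intro n
    by_contra hc
    apply hl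
    refine ⟨n, fun K _ _ X Y Z T hT => ?_⟩
    by_contra hf
    exact hc ⟨K, inferInstance, inferInstance, X, Y, Z, T, hT, hf⟩
  choose K iF iA X Y Z T hT using h1
  have h2 := hUPG l K X Y Z T (fun n => (hT n).1) (fun n => (hT n).2)
  exact ⟨UF (Filter.hyperfilter ℕ) K, inferInstance, hUAC ℕ (Filter.hyperfilter ℕ) K, ∀ n, X n, ∀ n, Y n,
    ∀ n, Z n, _, h2.1, h2.2⟩

end Pool.Agent.helper26.IM
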